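import Pool.Agent.W976.WQ.Up

/-! WQ-NEG: negative values of the Weil form if RH fails (helper976). -/

set_option autoImplicit false

open Complex MeasureTheory Set Filter
open scoped ComplexConjugate Topology
open Pool.Agent.W187.WP Pool.Agent.W187.WQ Pool.Agent.W8.WP

namespace Pool.Agent.W976.WQ

theorem mult_pos {s : ℂ} (hs : s ∈ Zr) : 1 ≤ mult s := by
  have h1 := Xi_order hs.2.1 hs.2.2
  have h2 : analyticOrderAt Xi s ≠ 0 := by
    rw [Ne, (Xi_an s).analyticOrderAt_eq_zero]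
    simpa using (Xi_mem s).2 hs
  have h3 : analyticOrderAt Xi s ≠ ⊤ := by
    rw [Ne, analyticOrderAt_eq_top]
    intro h
    have h4 : AnalyticOnNhd ℂ Xi univ := fun z _ => Xi_an z
    have h5 := h4.eqOn_zero_of_preconnected_of_eventuallyEq_zero isPreconnected_univ
      (mem_univ s) h
    have h6 := h5 (mem_univ (1 : ℂ))
    rw [Xi_one] at h6
    exact one_ne_zero h6
  unfold Pool.Agent.W187.WP.mult analyticOrderNatAt
  rw [← h1]
  have h4 := ENat.toNat_eq_zero (n := analyticOrderAt Xi s)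
  by_contra hcon
  have h5 : (analyticOrderAt Xi s).toNat = 0 := by omega
  rcases h4.1 h5 with h | h
  · exact h2 h
  · exact h3 h

/-- expansion of one term of the Weil form -/
theorem term_expand (c B B' K K' w w' : ℂ) (hw : w * w' = 1) (hc : c * conj c = 1) :
    (c * (w' * B) + w * K) * (conj c * (w * conj B') + w' * conj K') =
      B * conj B' + K * conj K' + conj c * (w ^ 2 * (K * conj B')) +
        c * (w' ^ 2 * (B * conj K')) := by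
  have e : (c * (w' * B) + w * K) * (conj c * (w * conj B') + w' * conj K') =
      (c * conj c) * (w * w') * (B * conj B') + (w * w') * (K * conj K') +
        conj c * (w ^ 2 * (K * conj B')) + c * (w' ^ 2 * (B * conj K')) := by ring
  rw [e, hw, hc]
  ring

theorem sq_cont {g : ℝ → ℂ} (hg : Continuous g) : Continuous (fun u => ‖g u‖ ^ 2) := by fun_prop

theorem sq_cs {g : ℝ → ℂ} (hc : HasCompactSupport g) : HasCompactSupport (fun u => ‖g u‖ ^ 2) := by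
  have h := hc.comp_left (g := fun x : ℂ => ‖x‖ ^ 2) (by simp)
  exact h

theorem sq_int {g : ℝ → ℂ} (hg : Continuous g) (hc : HasCompactSupport g) :
    Integrable (fun u => ‖g u‖ ^ 2) :=
  (sq_cont hg).integrable_of_hasCompactSupport (sq_cs hc)

theorem sq_pos {g : ℝ → ℂ} (hg : Continuous g) (hc : HasCompactSupport g) {u : ℝ} (hu : g u ≠ 0) :
    0 < ∫ u, ‖g u‖ ^ 2 := by
  refine (sq_cont hg).integral_pos_of_hasCompactSupport_nonneg_nonzero (sq_cs hc)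
    (fun u => sq_nonneg _) (x := u) ?_
  exact pow_ne_zero 2 (norm_ne_zero_iff.2 hu)

theorem sq_bound {g : ℝ → ℂ} {δ E : ℝ} (hδ : 0 < δ) (hg : Continuous g) (hs : ∀ u, δ < |u| → g u = 0)
    (hb : ∀ u, ‖g u‖ ≤ E) : ∫ u, ‖g u‖ ^ 2 ≤ 2 * δ * E ^ 2 := by
  have e1 : ∫ u, ‖g u‖ ^ 2 = ∫ u in Icc (-δ) δ, ‖g u‖ ^ 2 := by
    rw [setIntegral_eq_integral_of_forall_compl_eq_zero]
    intro u hu
    rw [hs u, norm_zero]
    · norm_num
    · by_contra h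
      exact hu (abs_le.1 (not_lt.1 h))
  rw [e1]
  have e2 : ∫ u in Icc (-δ) δ, ‖g u‖ ^ 2 ≤ ∫ _u in Icc (-δ) δ, E ^ 2 := by
    refine setIntegral_mono (sq_cont hg).integrableOn_Icc ?_ fun u => ?_
    · exact continuous_const.integrableOn_Icc
    · exact pow_le_pow_left₀ (norm_nonneg _) (hb u) 2
  refine e2.trans (le_of_eq ?_)
  rw [setIntegral_const, smul_eq_mul, Real.volume_real_Icc_of_le (by linarith)]
  ring


theorem cs_of {g : ℝ → ℂ} {δ : ℝ} (hs : ∀ u, δ < |u| → g u = 0) : HasCompactSupport g := by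
  refine HasCompactSupport.intro (isCompact_Icc (a := -δ) (b := δ)) fun u hu => hs u ?_
  by_contra h
  exact hu (abs_le.1 (not_lt.1 h))

theorem phase (X0 : ℂ) : ∃ c : ℂ, ‖c‖ = 1 ∧ conj c * X0 = -(‖X0‖ : ℂ) := by
  by_cases h : X0 = 0
  · exact ⟨1, by simp, by simp [h]⟩
  · have hn : (‖X0‖ : ℂ) ≠ 0 := by
      simpa using h
    refine ⟨-(X0 / ‖X0‖), ?_, ?_⟩
    · rw [norm_neg, norm_div, Complex.norm_real, norm_norm, div_self]
      simpa using h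
    · rw [map_neg, map_div₀, Complex.conj_ofReal]
      have h2 : conj X0 * X0 = (‖X0‖ : ℂ) ^ 2 := by
        rw [mul_comm, Complex.mul_conj, Complex.normSq_eq_norm_sq]
        push_cast
        rfl
      field_simp
      linear_combination -h2

/-- two bumps -/
noncomputable def ff (c : ℂ) (b k : ℝ → ℂ) (s : ℝ) (u : ℝ) : ℂ := c * b (u + s) + k (u + -s)

section

variable {c : ℂ} {b k : ℝ → ℂ} {s δ : ℝ}

theorem ff_cont (hb : ContDiff ℝ 2 b) (hk : ContDiff ℝ 2 k) : ContDiff ℝ 2 (ff c b k s) := by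
  have hf1c : ContDiff ℝ 2 (fun u => b (u + s)) := hb.comp (contDiff_id.add contDiff_const)
  have hf2c : ContDiff ℝ 2 (fun u => k (u + -s)) := hk.comp (contDiff_id.add contDiff_const)
  exact (contDiff_const.mul hf1c).add hf2c

theorem ff_supp (hs0 : 0 ≤ s) (hbs : ∀ u, δ < |u| → b u = 0) (hks : ∀ u, δ < |u| → k u = 0)
    {u : ℝ} (hu : s + δ < |u|) : ff c b k s u = 0 := by
  have h1 : b (u + s) = 0 := by
    apply hbs
    rcases lt_abs.1 hu with h | h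
    · rw [lt_abs]; left; linarith
    · rw [lt_abs]; right; linarith
  have h2 : k (u + -s) = 0 := by
    apply hks
    rcases lt_abs.1 hu with h | h
    · rw [lt_abs]; left; linarith
    · rw [lt_abs]; right; linarith
  simp [ff, h1, h2]

theorem ff_lap (hb : ContDiff ℝ 2 b) (hk : ContDiff ℝ 2 k) (hbc : HasCompactSupport b)
    (hkc : HasCompactSupport k) (z : ℂ) :
    lap (ff c b k s) z = c * (cexp (-(z * s)) * lap b z) + cexp (z * s) * lap k z := by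
  have hf1c : ContDiff ℝ 2 (fun u => b (u + s)) := hb.comp (contDiff_id.add contDiff_const)
  have hf2c : ContDiff ℝ 2 (fun u => k (u + -s)) := hk.comp (contDiff_id.add contDiff_const)
  have hf1i : Integrable (fun u : ℝ => b (u + s) * cexp (z * u)) :=
    int_mul hf1c.continuous (hbc.comp_homeomorph (Homeomorph.addRight s)) (by fun_prop)
  have hf2i : Integrable (fun u : ℝ => k (u + -s) * cexp (z * u)) :=
    int_mul hf2c.continuous (hkc.comp_homeomorph (Homeomorph.addRight (-s))) (by fun_prop)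
  have e1 : lap (ff c b k s) z = c * lap (fun u => b (u + s)) z + lap (fun u => k (u + -s)) z := by
    unfold lap
    rw [← integral_const_mul, ← integral_add (hf1i.const_mul c) hf2i]
    refine integral_congr_ae (Eventually.of_forall fun u => ?_)
    simp only [ff]
    ring
  rw [e1, lap_shift, lap_shift]
  congr 3
  push_cast
  ring

theorem ff_prod (hb : ContDiff ℝ 2 b) (hk : ContDiff ℝ 2 k) (hbc : HasCompactSupport b)
    (hkc : HasCompactSupport k) (hcc : c * conj c = 1) (ρ : ℂ) :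
    lap (ff c b k s) (ρ - 1 / 2) * conj (lap (ff c b k s) (1 / 2 - conj ρ)) =
      lap b (ρ - 1 / 2) * conj (lap b (1 / 2 - conj ρ)) +
        lap k (ρ - 1 / 2) * conj (lap k (1 / 2 - conj ρ)) +
        conj c * (cexp ((ρ - 1 / 2) * s) ^ 2 * (lap k (ρ - 1 / 2) * conj (lap b (1 / 2 - conj ρ)))) +
        c * (cexp (-((ρ - 1 / 2) * s)) ^ 2 *
          (lap b (ρ - 1 / 2) * conj (lap k (1 / 2 - conj ρ)))) := by
  have h1 : conj (cexp (-((1 / 2 - conj ρ) * s))) = cexp ((ρ - 1 / 2) * s) := by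
    rw [← Complex.exp_conj]
    congr 1
    apply Complex.ext <;> simp <;> ring
  have h2 : conj (cexp ((1 / 2 - conj ρ) * s)) = cexp (-((ρ - 1 / 2) * s)) := by
    rw [← Complex.exp_conj]
    congr 1
    apply Complex.ext <;> simp <;> ring
  rw [ff_lap hb hk hbc hkc, ff_lap hb hk hbc hkc, map_add, map_mul, map_mul, map_mul, h1, h2]
  apply term_expand
  · rw [← Complex.exp_add]
    simp
  · exact hcc

theorem ff_sq (hc : ‖c‖ = 1) (hδ : 0 < δ) (hb : ContDiff ℝ 2 b) (hk : ContDiff ℝ 2 k)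
    (hbs : ∀ u, δ < |u| → b u = 0) (hks : ∀ u, δ < |u| → k u = 0) {E : ℝ}
    (hkb : ∀ u, ‖k u‖ ≤ E) (hs0 : 0 ≤ s) :
    (∫ u, ‖ff c b k s u‖ ^ 2) ≤ 2 * (∫ u, ‖b u‖ ^ 2) + 4 * δ * E ^ 2 := by
  have hint_b := sq_int hb.continuous (cs_of hbs)
  have hint_k := sq_int hk.continuous (cs_of hks)
  have hint_f := sq_int (ff_cont (c := c) (s := s) hb hk).continuous
    (cs_of (fun u hu => ff_supp (c := c) hs0 hbs hks hu))
  have h1 : ∀ u, ‖ff c b k s u‖ ^ 2 ≤ 2 * ‖b (u + s)‖ ^ 2 + 2 * ‖k (u + -s)‖ ^ 2 := by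
    intro u
    have h2 : ‖ff c b k s u‖ ≤ ‖b (u + s)‖ + ‖k (u + -s)‖ := by
      unfold ff
      refine (norm_add_le _ _).trans ?_
      rw [norm_mul, hc, one_mul]
    have h3 := pow_le_pow_left₀ (norm_nonneg _) h2 2
    nlinarith [sq_nonneg (‖b (u + s)‖ - ‖k (u + -s)‖)]
  have i1 : Integrable (fun u => 2 * ‖b (u + s)‖ ^ 2) :=
    (hint_b.comp_add_right s).const_mul 2
  have i2 : Integrable (fun u => 2 * ‖k (u + -s)‖ ^ 2) :=
    (hint_k.comp_add_right (-s)).const_mul 2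
  have h2 : ∫ u, ‖ff c b k s u‖ ^ 2 ≤ ∫ u, (2 * ‖b (u + s)‖ ^ 2 + 2 * ‖k (u + -s)‖ ^ 2) :=
    integral_mono hint_f (i1.add i2) h1
  rw [integral_add i1 i2, integral_const_mul, integral_const_mul] at h2
  have h3 : ∫ u, ‖b (u + s)‖ ^ 2 = ∫ u, ‖b u‖ ^ 2 :=
    integral_add_right_eq_self (fun u : ℝ => ‖b u‖ ^ 2) s
  have h4 : ∫ u, ‖k (u + -s)‖ ^ 2 = ∫ u, ‖k u‖ ^ 2 :=
    integral_add_right_eq_self (fun u : ℝ => ‖k u‖ ^ 2) (-s)
  rw [h3, h4] at h2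
  have h5 := sq_bound hδ hk.continuous hks hkb
  linarith

theorem ff_pos (hc : ‖c‖ = 1) (hb : ContDiff ℝ 2 b) (hk : ContDiff ℝ 2 k)
    (hbs : ∀ u, δ < |u| → b u = 0) (hks : ∀ u, δ < |u| → k u = 0) (hs0 : δ < s) (hδ : 0 < δ)
    {u0 : ℝ} (hu0 : b u0 ≠ 0) : 0 < ∫ u, ‖ff c b k s u‖ ^ 2 := by
  have hu0' : |u0| ≤ δ := by
    by_contra h
    exact hu0 (hbs u0 (not_le.1 h))
  refine sq_pos (ff_cont hb hk).continuous
    (cs_of (fun u hu => ff_supp (c := c) (hδ.trans hs0).le hbs hks hu)) (u := u0 - s) ?_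
  have h2 : k (u0 - s + -s) = 0 := by
    apply hks
    rw [lt_abs]
    right
    have := (abs_le.1 hu0').2
    linarith
  have h3 : b (u0 - s + s) = b u0 := by ring_nf
  unfold ff
  rw [h2, h3, add_zero]
  apply mul_ne_zero _ hu0
  intro h0
  rw [h0, norm_zero] at hc
  norm_num at hc

theorem exp_n (z : ℂ) : ‖cexp (z * s) ^ 2‖ = Real.exp (z.re * (2 * s)) := by
  rw [norm_pow, Complex.norm_exp, ← Real.exp_nat_mul]
  congr 1
  simp
  ring

theorem exp_n' (z : ℂ) : ‖cexp (-(z * s)) ^ 2‖ = Real.exp (-(z.re) * (2 * s)) := by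
  have h := exp_n (s := s) (-z)
  rw [neg_mul, neg_re] at h
  exact h

end

/-- one term of the Weil form away from the main zero, or the main one -/
theorem one_term {ρ ρ₀ : ℂ} (hρ : ρ ∈ Zr) (hβ : 1 / 2 < ρ₀.re) {s CB E1 G2 : ℝ}
    (hCB : 0 < CB) (hE1 : 0 < E1) (hG2 : 0 < G2) {B K : ℂ → ℂ} {c X0 : ℂ} (hc : ‖c‖ = 1)
    (hX0 : X0 = cexp ((ρ₀ - 1 / 2) * s) ^ 2 * (K (ρ₀ - 1 / 2) * conj (B (1 / 2 - conj ρ₀))))
    (hcX : conj c * X0 = -(‖X0‖ : ℂ))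
    (hbd : ∀ z : ℂ, |z.re| ≤ 1 / 2 → ‖B z‖ ≤ CB / (1 + z.im ^ 2))
    (hkd : ∀ z : ℂ, |z.re| ≤ 1 / 2 → ‖K z‖ ≤ E1 / (1 + z.im ^ 2))
    (hoff : ∀ ρ ∈ Zr, ρ ≠ ρ₀ → Real.exp ((ρ.re - 1 / 2) * (2 * s)) * ‖K (ρ - 1 / 2)‖ ≤
      G2 / (1 + ρ.im ^ 2)) :
    (B (ρ - 1 / 2) * conj (B (1 / 2 - conj ρ)) +
        K (ρ - 1 / 2) * conj (K (1 / 2 - conj ρ)) +
        conj c * (cexp ((ρ - 1 / 2) * s) ^ 2 * (K (ρ - 1 / 2) * conj (B (1 / 2 - conj ρ)))) +
        c * (cexp (-((ρ - 1 / 2) * s)) ^ 2 *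
          (B (ρ - 1 / 2) * conj (K (1 / 2 - conj ρ))))).re ≤
      (CB ^ 2 + E1 ^ 2 + 2 * (CB * G2)) / (1 + ρ.im ^ 2) - (if ρ = ρ₀ then ‖X0‖ else 0) := by
  have hD : 0 < 1 + ρ.im ^ 2 := by positivity
  have hD1 : 1 ≤ 1 + ρ.im ^ 2 := by nlinarith [sq_nonneg ρ.im]
  have hi1 : (ρ - 1 / 2 : ℂ).im = ρ.im := by simp
  have hi2 : (1 / 2 - conj ρ : ℂ).im = ρ.im := by simp
  have hr1 := Zr_re hρ
  have hr2 : |(1 / 2 - conj ρ : ℂ).re| ≤ 1 / 2 := by
    rw [half_conj]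
    exact Zr_re (Zr_inv hρ)
  have b1 := hbd _ hr1
  have b2 := hbd _ hr2
  have k1 := hkd _ hr1
  have k2 := hkd _ hr2
  rw [hi1] at b1 k1
  rw [hi2] at b2 k2
  have b1' : ‖B (ρ - 1 / 2)‖ ≤ CB := b1.trans (div_le_self hCB.le hD1)
  have b2' : ‖B (1 / 2 - conj ρ)‖ ≤ CB := b2.trans (div_le_self hCB.le hD1)
  have k2' : ‖K (1 / 2 - conj ρ)‖ ≤ E1 := k2.trans (div_le_self hE1.le hD1)
  have t1 : (B (ρ - 1 / 2) * conj (B (1 / 2 - conj ρ))).re ≤ CB ^ 2 / (1 + ρ.im ^ 2) := by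
    refine (Complex.re_le_norm _).trans ?_
    rw [norm_mul, RCLike.norm_conj]
    calc ‖B (ρ - 1 / 2)‖ * ‖B (1 / 2 - conj ρ)‖ ≤ CB / (1 + ρ.im ^ 2) * CB :=
          mul_le_mul b1 b2' (norm_nonneg _) (by positivity)
      _ = _ := by ring
  have t2 : (K (ρ - 1 / 2) * conj (K (1 / 2 - conj ρ))).re ≤ E1 ^ 2 / (1 + ρ.im ^ 2) := by
    refine (Complex.re_le_norm _).trans ?_
    rw [norm_mul, RCLike.norm_conj]
    calc ‖K (ρ - 1 / 2)‖ * ‖K (1 / 2 - conj ρ)‖ ≤ E1 / (1 + ρ.im ^ 2) * E1 :=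
          mul_le_mul k1 k2' (norm_nonneg _) (by positivity)
      _ = _ := by ring
  have t3 : ρ ≠ ρ₀ → (conj c * (cexp ((ρ - 1 / 2) * s) ^ 2 *
      (K (ρ - 1 / 2) * conj (B (1 / 2 - conj ρ))))).re ≤ CB * G2 / (1 + ρ.im ^ 2) := by
    intro hne
    refine (Complex.re_le_norm _).trans ?_
    rw [norm_mul, RCLike.norm_conj, hc, one_mul, norm_mul, exp_n, norm_mul, RCLike.norm_conj]
    have h1 := hoff ρ hρ hne
    have h2 : (ρ - 1 / 2 : ℂ).re = ρ.re - 1 / 2 := by simp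
    rw [h2, ← mul_assoc]
    calc _ ≤ G2 / (1 + ρ.im ^ 2) * CB := mul_le_mul h1 b2' (norm_nonneg _) (by positivity)
      _ = _ := by ring
  have t4 : (1 - conj ρ) ≠ ρ₀ → (c * (cexp (-((ρ - 1 / 2) * s)) ^ 2 *
      (B (ρ - 1 / 2) * conj (K (1 / 2 - conj ρ))))).re ≤ CB * G2 / (1 + ρ.im ^ 2) := by
    intro hne
    refine (Complex.re_le_norm _).trans ?_
    rw [norm_mul, hc, one_mul, norm_mul, exp_n', norm_mul, RCLike.norm_conj]
    have h1 := hoff _ (Zr_inv hρ) hne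
    rw [← half_conj] at h1
    have h2 : (1 - conj ρ : ℂ).re - 1 / 2 = -((ρ - 1 / 2 : ℂ).re) := by
      simp
      ring
    have h3 : (1 - conj ρ : ℂ).im = ρ.im := by simp
    rw [h2, h3] at h1
    calc Real.exp (-((ρ - 1 / 2 : ℂ).re) * (2 * s)) * (‖B (ρ - 1 / 2)‖ * ‖K (1 / 2 - conj ρ)‖)
        = (Real.exp (-((ρ - 1 / 2 : ℂ).re) * (2 * s)) * ‖K (1 / 2 - conj ρ)‖) *
            ‖B (ρ - 1 / 2)‖ := by
          ring
      _ ≤ G2 / (1 + ρ.im ^ 2) * CB := mul_le_mul h1 b1' (norm_nonneg _) (by positivity)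
      _ = _ := by ring
  have h5 : 0 ≤ CB * G2 / (1 + ρ.im ^ 2) := by positivity
  have hsplit : (CB ^ 2 + E1 ^ 2 + 2 * (CB * G2)) / (1 + ρ.im ^ 2) = CB ^ 2 / (1 + ρ.im ^ 2) +
      E1 ^ 2 / (1 + ρ.im ^ 2) + CB * G2 / (1 + ρ.im ^ 2) + CB * G2 / (1 + ρ.im ^ 2) := by ring
  rw [hsplit]
  simp only [Complex.add_re]
  by_cases h0 : ρ = ρ₀
  · have hne : (1 - conj ρ) ≠ ρ₀ := by
      intro h
      have h1 := congrArg Complex.re h
      rw [h0] at h1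
      simp at h1
      linarith
    have h4 := t4 hne
    have h3 : (conj c * (cexp ((ρ - 1 / 2) * s) ^ 2 *
      (K (ρ - 1 / 2) * conj (B (1 / 2 - conj ρ))))).re = -‖X0‖ := by
      rw [h0, ← hX0, hcX]
      simp
    rw [if_pos h0, h3]
    linarith
  · rw [if_neg h0, sub_zero]
    have h3 := t3 h0
    have h4 : (c * (cexp (-((ρ - 1 / 2) * s)) ^ 2 *
        (B (ρ - 1 / 2) * conj (K (1 / 2 - conj ρ))))).re ≤ CB * G2 / (1 + ρ.im ^ 2) := by
      by_cases h : (1 - conj ρ) = ρ₀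
      · have e1 : (1 / 2 - conj ρ : ℂ) = ρ₀ - 1 / 2 := by
          rw [← h]
          ring
        have e2 : (ρ - 1 / 2 : ℂ) = 1 / 2 - conj ρ₀ := by
          rw [← h]
          simp
          ring
        have e3 : c * (cexp (-((ρ - 1 / 2) * s)) ^ 2 *
            (B (ρ - 1 / 2) * conj (K (1 / 2 - conj ρ)))) = conj (conj c * X0) := by
          rw [e1, e2, hX0]
          simp only [map_mul, map_pow, Complex.conj_conj]
          rw [← Complex.exp_conj]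
          have e4 : conj ((ρ₀ - 1 / 2) * (s : ℂ)) = -((1 / 2 - conj ρ₀) * s) := by
            apply Complex.ext <;> simp <;> ring
          rw [e4]
          ring
        rw [e3, hcX]
        have h6 : (conj (-(‖X0‖ : ℂ))).re = -‖X0‖ := by simp
        rw [h6]
        have := norm_nonneg X0
        linarith
      · exact t4 h
    linarith

theorem off_main {ρ₀ : ℂ} {σ δ η L : ℝ} (hσ : 1 / 2 < σ) (hδ : 0 < δ) (hL : 4 * δ < L)
    {K : ℂ → ℂ}
    (hk2 : ∀ z : ℂ, |z.re| ≤ 1 / 2 → ‖K z‖ ≤ Real.exp (η * L) / (1 + z.im ^ 2))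
    (hk3 : ∀ ρ ∈ Zr, ρ ≠ ρ₀ → σ ≤ ρ.re → ‖K (ρ - 1 / 2)‖ ≤ Real.exp (-L) / (1 + ρ.im ^ 2))
    (ρ : ℂ) (hρ : ρ ∈ Zr) (hne : ρ ≠ ρ₀) :
    Real.exp ((ρ.re - 1 / 2) * (2 * (L / 2 - δ))) * ‖K (ρ - 1 / 2)‖ ≤
      (Real.exp (-(L / 2)) + Real.exp ((σ - 1 / 2) * L + η * L)) / (1 + ρ.im ^ 2) := by
  have hD : 0 < 1 + ρ.im ^ 2 := by positivity
  have hl : 2 * (L / 2 - δ) = L - 2 * δ := by ring
  rw [hl]
  rcases le_total σ ρ.re with h | h
  · have h1 := hk3 ρ hρ hne h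
    have h2 : Real.exp ((ρ.re - 1 / 2) * (L - 2 * δ)) ≤ Real.exp (L / 2) := by
      apply Real.exp_le_exp.2
      have := hρ.2.2
      nlinarith
    calc Real.exp ((ρ.re - 1 / 2) * (L - 2 * δ)) * ‖K (ρ - 1 / 2)‖
        ≤ Real.exp (L / 2) * (Real.exp (-L) / (1 + ρ.im ^ 2)) :=
          mul_le_mul h2 h1 (norm_nonneg _) (Real.exp_pos _).le
      _ = Real.exp (-(L / 2)) / (1 + ρ.im ^ 2) := by
          rw [← mul_div_assoc, ← Real.exp_add]
          congr 2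
          ring
      _ ≤ _ := by
          apply div_le_div_of_nonneg_right _ hD.le
          linarith [Real.exp_pos ((σ - 1 / 2) * L + η * L)]
  · have h1 := hk2 (ρ - 1 / 2) (Zr_re hρ)
    have h3 : (ρ - 1 / 2 : ℂ).im = ρ.im := by simp
    rw [h3] at h1
    have h2 : Real.exp ((ρ.re - 1 / 2) * (L - 2 * δ)) ≤ Real.exp ((σ - 1 / 2) * L) := by
      apply Real.exp_le_exp.2
      have h4 : (ρ.re - 1 / 2) * (L - 2 * δ) ≤ (σ - 1 / 2) * (L - 2 * δ) :=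
        mul_le_mul_of_nonneg_right (by linarith) (by linarith)
      have h5 : (σ - 1 / 2) * (L - 2 * δ) ≤ (σ - 1 / 2) * L :=
        mul_le_mul_of_nonneg_left (by linarith) (by linarith)
      linarith
    calc Real.exp ((ρ.re - 1 / 2) * (L - 2 * δ)) * ‖K (ρ - 1 / 2)‖
        ≤ Real.exp ((σ - 1 / 2) * L) * (Real.exp (η * L) / (1 + ρ.im ^ 2)) :=
          mul_le_mul h2 h1 (norm_nonneg _) (Real.exp_pos _).le
      _ = Real.exp ((σ - 1 / 2) * L + η * L) / (1 + ρ.im ^ 2) := by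
          rw [← mul_div_assoc, Real.exp_add]
      _ ≤ _ := by
          apply div_le_div_of_nonneg_right _ hD.le
          linarith [Real.exp_pos (-(L / 2))]

/-- the bound of the Weil form for one `L` -/
theorem weil_le {ρ₀ : ℂ} (hρ₀ : ρ₀ ∈ Zr) (hβ : 1 / 2 < ρ₀.re) {s CB E1 G2 δ : ℝ}
    (hCB : 0 < CB) (hE1 : 0 < E1) (hG2 : 0 < G2) {b k : ℝ → ℂ}
    (hb : ContDiff ℝ 2 b) (hk : ContDiff ℝ 2 k)
    (hbs : ∀ u, δ < |u| → b u = 0) (hks : ∀ u, δ < |u| → k u = 0)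
    (hbd : ∀ z : ℂ, |z.re| ≤ 1 / 2 → ‖lap b z‖ ≤ CB / (1 + z.im ^ 2))
    (hkd : ∀ z : ℂ, |z.re| ≤ 1 / 2 → ‖lap k z‖ ≤ E1 / (1 + z.im ^ 2))
    (hoff : ∀ ρ ∈ Zr, ρ ≠ ρ₀ → Real.exp ((ρ.re - 1 / 2) * (2 * s)) * ‖lap k (ρ - 1 / 2)‖ ≤
      G2 / (1 + ρ.im ^ 2)) :
    ∃ c : ℂ, ‖c‖ = 1 ∧ ∀ W : ℝ, Weil (ff c b k s) W →
      W ≤ (CB ^ 2 + E1 ^ 2 + 2 * (CB * G2)) *
          (∑' ρ : Zr, (mult ρ : ℝ) / (1 + (ρ : ℂ).im ^ 2)) -
        Real.exp ((ρ₀.re - 1 / 2) * (2 * s)) *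
          (‖lap k (ρ₀ - 1 / 2)‖ * ‖lap b (1 / 2 - conj ρ₀)‖) := by
  obtain ⟨X0, hX0⟩ : ∃ X0 : ℂ, X0 = cexp ((ρ₀ - 1 / 2) * s) ^ 2 *
      (lap k (ρ₀ - 1 / 2) * conj (lap b (1 / 2 - conj ρ₀))) := ⟨_, rfl⟩
  obtain ⟨c, hc, hcX⟩ := phase X0
  have hcc : c * conj c = 1 := by
    rw [Complex.mul_conj, Complex.normSq_eq_norm_sq, hc]
    norm_num
  refine ⟨c, hc, fun W hW => ?_⟩
  have hXn : ‖X0‖ = Real.exp ((ρ₀.re - 1 / 2) * (2 * s)) *
      (‖lap k (ρ₀ - 1 / 2)‖ * ‖lap b (1 / 2 - conj ρ₀)‖) := by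
    rw [hX0, norm_mul, exp_n, norm_mul, RCLike.norm_conj]
    have h1 : (ρ₀ - 1 / 2 : ℂ).re = ρ₀.re - 1 / 2 := by simp
    rw [h1]
  rw [← hXn]
  set G : ℝ := CB ^ 2 + E1 ^ 2 + 2 * (CB * G2) with hG
  have hterm : ∀ ρ : Zr, ((mult ρ : ℂ) *
      (lap (ff c b k s) ((ρ : ℂ) - 1 / 2) * conj (lap (ff c b k s) (1 / 2 - conj (ρ : ℂ))))).re ≤
      G * ((mult ρ : ℝ) / (1 + (ρ : ℂ).im ^ 2)) - (if ρ = (⟨ρ₀, hρ₀⟩ : Zr) then ‖X0‖ else 0) := by
    rintro ⟨ρ, hρ⟩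
    have h1 := one_term (B := lap b) (K := lap k) hρ hβ hCB hE1 hG2 hc hX0 hcX hbd hkd hoff
    rw [← ff_prod hb hk (cs_of hbs) (cs_of hks) hcc ρ, ← hG] at h1
    have hre : ((mult ρ : ℂ) * (lap (ff c b k s) (ρ - 1 / 2) *
        conj (lap (ff c b k s) (1 / 2 - conj ρ)))).re =
        (mult ρ : ℝ) * (lap (ff c b k s) (ρ - 1 / 2) *
          conj (lap (ff c b k s) (1 / 2 - conj ρ))).re := by
      have : (mult ρ : ℂ) = ((mult ρ : ℝ) : ℂ) := by push_cast; rfl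
      rw [this, Complex.re_ofReal_mul]
    have hm1 : (1 : ℝ) ≤ mult ρ := by exact_mod_cast mult_pos hρ
    have h7 := mul_le_mul_of_nonneg_left h1 (show (0 : ℝ) ≤ mult ρ by positivity)
    show ((mult ρ : ℂ) * (lap (ff c b k s) (ρ - 1 / 2) *
        conj (lap (ff c b k s) (1 / 2 - conj ρ)))).re ≤
      G * ((mult ρ : ℝ) / (1 + ρ.im ^ 2)) - (if (⟨ρ, hρ⟩ : Zr) = (⟨ρ₀, hρ₀⟩ : Zr) then ‖X0‖ else 0)
    rw [hre]
    refine h7.trans ?_
    rw [mul_sub]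
    have h8 : (mult ρ : ℝ) * (G / (1 + ρ.im ^ 2)) = G * ((mult ρ : ℝ) / (1 + ρ.im ^ 2)) := by ring
    rw [h8]
    by_cases h0 : ρ = ρ₀
    · rw [if_pos h0, if_pos (Subtype.ext h0)]
      have h9 : ‖X0‖ ≤ (mult ρ : ℝ) * ‖X0‖ := le_mul_of_one_le_left (norm_nonneg _) hm1
      linarith
    · rw [if_neg h0, if_neg (fun h => h0 (congrArg Subtype.val h)), mul_zero]
  have h1 : HasSum (fun ρ : Zr => ((mult ρ : ℂ) *
      (lap (ff c b k s) ((ρ : ℂ) - 1 / 2) *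
        conj (lap (ff c b k s) (1 / 2 - conj (ρ : ℂ))))).re) W := by
    have := Complex.hasSum_re hW
    rwa [Complex.ofReal_re] at this
  have h2 : HasSum (fun ρ : Zr => G * ((mult ρ : ℝ) / (1 + (ρ : ℂ).im ^ 2)) -
      (if ρ = (⟨ρ₀, hρ₀⟩ : Zr) then ‖X0‖ else 0))
      (G * (∑' ρ : Zr, (mult ρ : ℝ) / (1 + (ρ : ℂ).im ^ 2)) - ‖X0‖) :=
    (zr_summable.hasSum.mul_left G).sub (hasSum_ite_eq _ _)
  exact hasSum_le hterm h1 h2

/-- a bump whose transform is nonzero at a given point -/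
theorem bump_at (z : ℂ) {δ : ℝ} (hδ : 0 < δ) : ∃ b : ℝ → ℂ, ContDiff ℝ 2 b ∧
    (∀ u, δ < |u| → b u = 0) ∧ lap b z = 1 ∧ ∃ u0, b u0 ≠ 0 := by
  obtain ⟨e, he, _, hes, hec, he1⟩ := bump δ hδ
  have h1 : lap (fun u => (e u : ℂ) * cexp (-(z * u))) z = 1 := by
    unfold lap
    have h2 : ∀ u : ℝ, (e u : ℂ) * cexp (-(z * u)) * cexp (z * u) = (e u : ℂ) := by
      intro u
      rw [mul_assoc, ← Complex.exp_add]
      simp
    simp_rw [h2]
    rw [integral_complex_ofReal, he1]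
    simp
  refine ⟨fun u => (e u : ℂ) * cexp (-(z * u)), ?_, ?_, h1, ?_⟩
  · refine (Complex.ofRealCLM.contDiff.comp he).mul ?_
    refine ContDiff.cexp ?_
    exact (contDiff_const.mul Complex.ofRealCLM.contDiff).neg
  · intro u hu
    simp [hes u hu]
  · by_contra hcon
    push Not at hcon
    have h3 : lap (fun u => (e u : ℂ) * cexp (-(z * u))) z = 0 := by
      unfold lap
      simp only [hcon, zero_mul, integral_zero]
    rw [h1] at h3
    exact one_ne_zero h3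

theorem neg (hKK : S_KK) : S_NEG := by
  rintro θ hθ ⟨ρ₀, hz, hθβ⟩
  have hβ1 : ρ₀.re < 1 := by
    by_contra h
    exact riemannZeta_ne_zero_of_one_le_re (not_lt.1 h) hz
  have hρ₀ : ρ₀ ∈ Zr := ⟨hz, by linarith, hβ1⟩
  have hβ : 1 / 2 < ρ₀.re := by linarith
  set β : ℝ := ρ₀.re with hβdef
  set σ : ℝ := (1 / 2 + β) / 2 with hσdef
  have hσ : 1 / 2 < σ := by rw [hσdef]; linarith
  have hσ1 : σ < 1 := by rw [hσdef]; linarith
  set η : ℝ := (β - θ) / 16 with hηdef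
  have hη : 0 < η := by rw [hηdef]; linarith
  obtain ⟨b, hb, hbs, hb1, u0, hu0⟩ := bump_at (1 / 2 - conj ρ₀) (show (0 : ℝ) < 1 / 8 by norm_num)
  obtain ⟨CB, hCB, hbd⟩ := lap_decay hb (cs_of hbs) (1 / 2)
  set M : ℝ := ∑' ρ : Zr, (mult ρ : ℝ) / (1 + (ρ : ℂ).im ^ 2) with hM
  have hM0 : 0 ≤ M := tsum_nonneg fun ρ => by positivity
  set Nb : ℝ := ∫ u, ‖b u‖ ^ 2 with hNb
  have hNb0 : 0 ≤ Nb := integral_nonneg fun u => sq_nonneg _
  set C6 : ℝ := (CB ^ 2 + 1 + 4 * CB) * M + (2 * Nb + 1 / 2) with hC6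
  have hC60 : 0 ≤ C6 := by positivity
  have t1 : Tendsto (fun L : ℝ => Real.exp (η * L)) atTop atTop :=
    Real.tendsto_exp_atTop.comp (tendsto_id.const_mul_atTop hη)
  have e1 := t1.eventually_ge_atTop (C6 * Real.exp ((β - 1 / 2) / 4))
  filter_upwards [hKK ρ₀ σ (1 / 8) η hρ₀ hσ hσ1 (by norm_num) hη, e1, eventually_gt_atTop 1]
    with L hk hL1 hL
  obtain ⟨k, hkc, hks, hkb, hk1, hk2, hk3⟩ := hk
  set s : ℝ := L / 2 - 1 / 8 with hs
  set E1 : ℝ := Real.exp (η * L) with hE1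
  have hE10 : 0 < E1 := Real.exp_pos _
  set G2 : ℝ := Real.exp (-(L / 2)) + Real.exp ((σ - 1 / 2) * L + η * L) with hG2
  have hG20 : 0 < G2 := by positivity
  have hoff := off_main (ρ₀ := ρ₀) (δ := 1 / 8) (L := L) hσ (by norm_num) (by linarith) hk2 hk3
  rw [← hs, ← hG2] at hoff
  obtain ⟨c, hc, hW⟩ := weil_le hρ₀ hβ hCB hE10 hG20 hb hkc hbs hks hbd hk2 hoff
  refine ⟨ff c b k s, ff_cont hb hkc, ?_, ff_pos hc hb hkc hbs hks (by rw [hs]; linarith)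
    (by norm_num) hu0, ?_⟩
  · intro u hu
    refine ff_supp (by rw [hs]; linarith) hbs hks ?_
    rw [hs]
    linarith
  · intro W hWW
    have h1 := hW W hWW
    rw [← hM, hb1, norm_one, mul_one] at h1
    have h2 := ff_sq (c := c) (s := s) hc (by norm_num) hb hkc hbs hks hkb (by rw [hs]; linarith)
    rw [← hNb] at h2
    -- all exponents
    set F : ℝ := Real.exp ((β - 1 / 2 - 2 * η) * L) with hF
    have hF0 : 0 < F := Real.exp_pos _
    have hL0 : 0 < L := by linarith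
    have x1 : 1 ≤ F := by
      rw [hF]
      apply Real.one_le_exp
      apply mul_nonneg _ hL0.le
      rw [hηdef]
      linarith
    have x2 : E1 ^ 2 ≤ F := by
      rw [hE1, hF, ← Real.exp_nat_mul]
      apply Real.exp_le_exp.2
      push_cast
      have : 2 * η ≤ β - 1 / 2 - 2 * η := by rw [hηdef]; linarith
      nlinarith
    have x3 : Real.exp (-(L / 2)) ≤ F := by
      refine le_trans (Real.exp_le_one_iff.2 (by linarith)) x1
    have x4 : Real.exp ((σ - 1 / 2) * L + η * L) ≤ F := by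
      rw [hF]
      apply Real.exp_le_exp.2
      have : σ - 1 / 2 + η ≤ β - 1 / 2 - 2 * η := by rw [hσdef, hηdef]; linarith
      nlinarith
    have x5 : Real.exp ((θ - 1 / 2) * L) * E1 ^ 2 ≤ F := by
      rw [hE1, hF, ← Real.exp_nat_mul, ← Real.exp_add]
      apply Real.exp_le_exp.2
      push_cast
      have : θ - 1 / 2 + 2 * η ≤ β - 1 / 2 - 2 * η := by rw [hηdef]; linarith
      nlinarith
    have x6 : Real.exp ((θ - 1 / 2) * L) ≤ F := by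
      rw [hF]
      apply Real.exp_le_exp.2
      have : θ - 1 / 2 ≤ β - 1 / 2 - 2 * η := by rw [hηdef]; linarith
      nlinarith
    have y1 : (CB ^ 2 + E1 ^ 2 + 2 * (CB * G2)) * M ≤ ((CB ^ 2 + 1 + 4 * CB) * M) * F := by
      have z1 : CB ^ 2 ≤ CB ^ 2 * F := le_mul_of_one_le_right (sq_nonneg _) x1
      have z2 : CB * G2 ≤ CB * (2 * F) := by
        apply mul_le_mul_of_nonneg_left _ hCB.le
        rw [hG2]
        linarith
      have z3 : CB ^ 2 + E1 ^ 2 + 2 * (CB * G2) ≤ (CB ^ 2 + 1 + 4 * CB) * F := by linarith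
      calc _ ≤ (CB ^ 2 + 1 + 4 * CB) * F * M := mul_le_mul_of_nonneg_right z3 hM0
        _ = _ := by ring
    have y2 : Real.exp ((θ - 1 / 2) * L) * ∫ u, ‖ff c b k s u‖ ^ 2 ≤ (2 * Nb + 1 / 2) * F := by
      have z1 : Real.exp ((θ - 1 / 2) * L) * ∫ u, ‖ff c b k s u‖ ^ 2 ≤
          Real.exp ((θ - 1 / 2) * L) * (2 * Nb + 4 * (1 / 8) * E1 ^ 2) :=
        mul_le_mul_of_nonneg_left h2 (Real.exp_pos _).le
      have z2 : Real.exp ((θ - 1 / 2) * L) * (2 * Nb) ≤ F * (2 * Nb) :=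
        mul_le_mul_of_nonneg_right x6 (by positivity)
      have z3 : Real.exp ((θ - 1 / 2) * L) * (2 * Nb + 4 * (1 / 8) * E1 ^ 2) =
          Real.exp ((θ - 1 / 2) * L) * (2 * Nb) +
            1 / 2 * (Real.exp ((θ - 1 / 2) * L) * E1 ^ 2) := by ring
      linarith
    have y3 : C6 * F ≤ Real.exp ((β - 1 / 2) * (2 * s)) * ‖lap k (ρ₀ - 1 / 2)‖ := by
      have z1 : Real.exp ((β - 1 / 2) * (2 * s)) * Real.exp (-(η * L)) ≤
          Real.exp ((β - 1 / 2) * (2 * s)) * ‖lap k (ρ₀ - 1 / 2)‖ :=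
        mul_le_mul_of_nonneg_left hk1 (Real.exp_pos _).le
      refine le_trans ?_ z1
      have z2 : Real.exp ((β - 1 / 2) * (2 * s)) * Real.exp (-(η * L)) =
          Real.exp (-((β - 1 / 2) / 4)) * (E1 * F) := by
        rw [hE1, hF, ← Real.exp_add, ← Real.exp_add, ← Real.exp_add]
        congr 1
        rw [hs]
        ring
      rw [z2, ← mul_assoc]
      apply mul_le_mul_of_nonneg_right _ hF0.le
      have z3 : Real.exp (-((β - 1 / 2) / 4)) * (C6 * Real.exp ((β - 1 / 2) / 4)) ≤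
          Real.exp (-((β - 1 / 2) / 4)) * E1 :=
        mul_le_mul_of_nonneg_left hL1 (Real.exp_pos _).le
      have z4 : Real.exp (-((β - 1 / 2) / 4)) * (C6 * Real.exp ((β - 1 / 2) / 4)) = C6 := by
        have : Real.exp (-((β - 1 / 2) / 4)) * Real.exp ((β - 1 / 2) / 4) = 1 := by
          rw [← Real.exp_add]
          simp
        calc _ = C6 * (Real.exp (-((β - 1 / 2) / 4)) * Real.exp ((β - 1 / 2) / 4)) := by ring
          _ = C6 := by rw [this, mul_one]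
      linarith
    have y4 : C6 * F = ((CB ^ 2 + 1 + 4 * CB) * M) * F + (2 * Nb + 1 / 2) * F := by
      rw [hC6]
      ring
    have h1' : W ≤ (CB ^ 2 + E1 ^ 2 + 2 * (CB * G2)) * M -
        Real.exp ((β - 1 / 2) * (2 * s)) * ‖lap k (ρ₀ - 1 / 2)‖ := h1
    rw [neg_mul]
    linarith

end Pool.Agent.W976.WQ
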