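import Pool.Agent.W976.WQ.Sym

/-! WQ-UP: upper bound of the bottom of the Weil form (helper976). -/

set_option autoImplicit false

open Complex MeasureTheory Set Filter
open scoped ComplexConjugate Topology Convolution
open Pool.Agent.W187.WP Pool.Agent.W187.WQ Pool.Agent.W8.WP

namespace Pool.Agent.W976.WQ

/-- the transform of a convolution -/
theorem lap_conv {f g : ℝ → ℂ} {z : ℂ} (hf : Integrable (fun u : ℝ => f u * cexp (z * u)))
    (hg : Integrable (fun u : ℝ => g u * cexp (z * u))) :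
    lap (f ⋆[ContinuousLinearMap.mul ℝ ℂ, volume] g) z = lap f z * lap g z := by
  have h := integral_convolution (ContinuousLinearMap.mul ℝ ℂ) (μ := volume) (ν := volume) hf hg
  unfold lap
  rw [ContinuousLinearMap.mul_apply'] at h
  rw [← h]
  refine integral_congr_ae (Eventually.of_forall fun x => ?_)
  simp only [convolution_def, ContinuousLinearMap.mul_apply']
  rw [← integral_mul_const]
  refine integral_congr_ae (Eventually.of_forall fun t => ?_)
  simp only
  have : cexp (z * x) = cexp (z * t) * cexp (z * ((x - t : ℝ) : ℂ)) := by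
    rw [← Complex.exp_add]
    congr 1
    push_cast
    ring
  rw [this]
  ring

/-- Cauchy–Schwarz on an interval -/
theorem cs {a b : ℝ → ℝ} {x y : ℝ} (ha : Continuous a) (hb : Continuous b) :
    (∫ u in Icc x y, a u * b u) ^ 2 ≤ (∫ u in Icc x y, a u ^ 2) * ∫ u in Icc x y, b u ^ 2 := by
  have ia : IntegrableOn (fun u => a u ^ 2) (Icc x y) := (ha.pow 2).integrableOn_Icc
  have ib : IntegrableOn (fun u => b u ^ 2) (Icc x y) := (hb.pow 2).integrableOn_Icc
  have iab : IntegrableOn (fun u => a u * b u) (Icc x y) := (ha.mul hb).integrableOn_Icc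
  set A := ∫ u in Icc x y, a u ^ 2 with hA
  set B := ∫ u in Icc x y, b u ^ 2 with hB
  set P := ∫ u in Icc x y, a u * b u with hP
  have hq : ∀ t : ℝ, 0 ≤ A * (t * t) + (2 * P) * t + B := by
    intro t
    have h1 : 0 ≤ ∫ u in Icc x y, (t * a u + b u) ^ 2 := integral_nonneg fun u => sq_nonneg _
    have h2 : ∫ u in Icc x y, (t * a u + b u) ^ 2 = t ^ 2 * A + 2 * t * P + B := by
      have e : ∀ u, (t * a u + b u) ^ 2 = t ^ 2 * a u ^ 2 + (2 * t * (a u * b u) + b u ^ 2) := by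
        intro u; ring
      simp_rw [e]
      have i1 : IntegrableOn (fun u => t ^ 2 * a u ^ 2) (Icc x y) := ia.const_mul _
      have i2 : IntegrableOn (fun u => 2 * t * (a u * b u)) (Icc x y) := iab.const_mul _
      have i3 : IntegrableOn (fun u => 2 * t * (a u * b u) + b u ^ 2) (Icc x y) := i2.add ib
      rw [integral_add i1 i3, integral_add i2 ib, integral_const_mul, integral_const_mul]
      ring
    rw [h2] at h1
    linarith
  have h := discrim_le_zero hq
  unfold discrim at h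
  nlinarith

theorem tail_exp (B : ℝ) : ∫ u in Iic (-B), Real.exp u = Real.exp (-B) := integral_exp_Iic _

variable {q : ℝ → ℝ} {ε C B : ℝ}

/-- the integrand -/
noncomputable def Fq (q : ℝ → ℝ) (z : ℂ) (u : ℝ) : ℂ := (q u : ℂ) * cexp (z * u)

theorem Fq_cont (hq : Continuous q) (z : ℂ) : Continuous (Fq q z) := by
  unfold Fq
  fun_prop

theorem Fq_tail (hB : 0 ≤ B) (hC : 0 < C) (ht : ∀ u, u ≤ -B → |q u| ≤ C * Real.exp (3 / 2 * u))
    {z : ℂ} (hz : |z.re| ≤ 1 / 2) {u : ℝ} (hu : u ≤ -B) : ‖Fq q z u‖ ≤ C * Real.exp u := by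
  unfold Fq
  rw [norm_mul, Complex.norm_real, Real.norm_eq_abs, Complex.norm_exp]
  have h1 : (z * u).re = z.re * u := by simp
  rw [h1]
  have h2 : z.re * u ≤ -(u / 2) := by
    have := (abs_le.1 hz).1
    nlinarith
  calc |q u| * Real.exp (z.re * u) ≤ (C * Real.exp (3 / 2 * u)) * Real.exp (-(u / 2)) :=
        mul_le_mul (ht u hu) (Real.exp_le_exp.2 h2) (Real.exp_pos _).le (by positivity)
    _ = C * Real.exp u := by
        rw [mul_assoc, ← Real.exp_add]
        congr 2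
        ring

theorem Fq_tail_int (hq : Continuous q) (hB : 0 ≤ B) (hC : 0 < C)
    (ht : ∀ u, u ≤ -B → |q u| ≤ C * Real.exp (3 / 2 * u)) {z : ℂ} (hz : |z.re| ≤ 1 / 2) :
    IntegrableOn (Fq q z) (Iic (-B)) := by
  refine Integrable.mono' (g := fun u => C * Real.exp u) ?_
    (Fq_cont hq z).aestronglyMeasurable ?_
  · exact (integrableOn_exp_Iic (-B)).const_mul C
  · refine (ae_restrict_iff' measurableSet_Iic).2 (Eventually.of_forall fun u hu => ?_)
    exact Fq_tail hB hC ht hz hu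

theorem Fq_tail_norm (hB : 0 ≤ B) (hC : 0 < C)
    (ht : ∀ u, u ≤ -B → |q u| ≤ C * Real.exp (3 / 2 * u)) {z : ℂ} (hz : |z.re| ≤ 1 / 2) :
    ‖∫ u in Iic (-B), Fq q z u‖ ≤ C := by
  have h : ‖∫ u in Iic (-B), Fq q z u‖ ≤ ∫ u in Iic (-B), C * Real.exp u := by
    refine norm_integral_le_of_norm_le ((integrableOn_exp_Iic (-B)).const_mul C) ?_
    refine (ae_restrict_iff' measurableSet_Iic).2 (Eventually.of_forall fun u hu => ?_)
    exact Fq_tail hB hC ht hz hu
  rw [integral_const_mul, tail_exp] at h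
  have h2 : Real.exp (-B) ≤ 1 := Real.exp_le_one_iff.2 (by linarith)
  calc _ ≤ C * Real.exp (-B) := h
    _ ≤ C * 1 := mul_le_mul_of_nonneg_left h2 hC.le
    _ = C := mul_one C

/-- the truncation -/
noncomputable def q1 (q : ℝ → ℝ) (B R : ℝ) : ℝ → ℂ := (Icc (-B) R).indicator fun u => (q u : ℂ)

theorem q1_lap (hq : Continuous q) (hB : 0 ≤ B) (hC : 0 < C) {R : ℝ}
    (h0 : ∀ u, R ≤ u → q u = 0) (ht : ∀ u, u ≤ -B → |q u| ≤ C * Real.exp (3 / 2 * u))
    {z : ℂ} (hz : |z.re| ≤ 1 / 2) :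
    lap (q1 q B R) z = (∫ u, Fq q z u) - ∫ u in Iic (-B), Fq q z u := by
  have hi1 := Fq_tail_int hq hB hC ht hz
  have hi2 : IntegrableOn (Fq q z) (Icc (-B) R) := (Fq_cont hq z).integrableOn_Icc
  have e : Fq q z = fun u => (Iic (-B)).indicator (Fq q z) u + (Ioc (-B) R).indicator (Fq q z) u := by
    funext u
    by_cases h1 : u ≤ -B
    · rw [indicator_of_mem (show u ∈ Iic (-B) from h1),
        indicator_of_notMem (fun h => absurd h.1 (not_lt.2 h1)), add_zero]
    · rw [indicator_of_notMem (show u ∉ Iic (-B) from h1), zero_add]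
      by_cases h2 : u ≤ R
      · rw [indicator_of_mem (show u ∈ Ioc (-B) R from ⟨not_le.1 h1, h2⟩)]
      · rw [indicator_of_notMem (fun h => h2 h.2)]
        unfold Fq
        rw [h0 u (not_le.1 h2).le]
        simp
  have e2 : ∫ u, Fq q z u = (∫ u in Iic (-B), Fq q z u) + ∫ u in Ioc (-B) R, Fq q z u := by
    conv_lhs => rw [e]
    rw [integral_add (hi1.integrable_indicator measurableSet_Iic)
      ((hi2.mono_set Ioc_subset_Icc_self).integrable_indicator measurableSet_Ioc),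
      integral_indicator measurableSet_Iic, integral_indicator measurableSet_Ioc]
  rw [e2, add_sub_cancel_left]
  unfold lap
  have e3 : ∀ u : ℝ, q1 q B R u * cexp (z * u) = (Icc (-B) R).indicator (Fq q z) u := by
    intro u
    unfold q1
    by_cases h : u ∈ Icc (-B) R
    · rw [indicator_of_mem h, indicator_of_mem h]
      rfl
    · rw [indicator_of_notMem h, indicator_of_notMem h, zero_mul]
  simp_rw [e3]
  rw [integral_indicator measurableSet_Icc, integral_Icc_eq_integral_Ioc]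

theorem q1_int (hq : Continuous q) {R : ℝ} (z : ℂ) :
    Integrable (fun u : ℝ => q1 q B R u * cexp (z * u)) := by
  have e3 : (fun u : ℝ => q1 q B R u * cexp (z * u)) = (Icc (-B) R).indicator (Fq q z) := by
    funext u
    unfold q1
    by_cases h : u ∈ Icc (-B) R
    · rw [indicator_of_mem h, indicator_of_mem h]
      rfl
    · rw [indicator_of_notMem h, indicator_of_notMem h, zero_mul]
  rw [e3]
  exact (Fq_cont hq z).integrableOn_Icc.integrable_indicator measurableSet_Icc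

theorem bump (ε : ℝ) (hε : 0 < ε) : ∃ e : ℝ → ℝ, ContDiff ℝ 2 e ∧ (∀ u, 0 ≤ e u) ∧
    (∀ u, ε < |u| → e u = 0) ∧ HasCompactSupport e ∧ ∫ u, e u = 1 := by
  let φ : ContDiffBump (0 : ℝ) := ⟨ε / 2, ε, by positivity, by linarith⟩
  refine ⟨φ.normed volume, φ.contDiff_normed, φ.nonneg_normed, ?_, φ.hasCompactSupport_normed,
    φ.integral_normed⟩
  intro u hu
  by_contra h
  have h1 : u ∈ Function.support (φ.normed volume) := h
  rw [φ.support_normed_eq] at h1
  rw [mem_ball_zero_iff, Real.norm_eq_abs] at h1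
  have : φ.rOut = ε := rfl
  linarith

/-- lower bound of the transform of the bump at `1/2` -/
theorem bump_half {e : ℝ → ℝ} (he : Continuous e) (h0 : ∀ u, 0 ≤ e u) (hε : 0 < ε)
    (hs : ∀ u, ε < |u| → e u = 0) (hc : HasCompactSupport e) (h1 : ∫ u, e u = 1) :
    Real.exp (-(ε / 2)) ≤ ‖lap (fun u => (e u : ℂ)) (1 / 2)‖ := by
  have h2 : lap (fun u => (e u : ℂ)) (1 / 2) = ((∫ u, e u * Real.exp (u / 2) : ℝ) : ℂ) := by
    unfold lap
    rw [← integral_complex_ofReal]
    refine integral_congr_ae (Eventually.of_forall fun u => ?_)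
    simp only
    push_cast
    congr 2
    ring
  rw [h2, Complex.norm_real, Real.norm_eq_abs]
  have i1 : Integrable (fun u => e u * Real.exp (u / 2)) :=
    (he.mul (by fun_prop)).integrable_of_hasCompactSupport hc.mul_right
  have i2 : Integrable (fun u => e u * Real.exp (-(ε / 2))) :=
    (he.integrable_of_hasCompactSupport hc).mul_const _
  have h3 : ∫ u, e u * Real.exp (-(ε / 2)) ≤ ∫ u, e u * Real.exp (u / 2) := by
    refine integral_mono i2 i1 fun u => ?_
    by_cases h : ε < |u|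
    · simp [hs u h]
    · apply mul_le_mul_of_nonneg_left _ (h0 u)
      apply Real.exp_le_exp.2
      have := (abs_le.1 (not_lt.1 h)).1
      linarith
  rw [integral_mul_const, h1, one_mul] at h3
  exact h3.trans (le_abs_self _)

/-- everything for one `L` -/
theorem core {e : ℝ → ℝ} (he : ContDiff ℝ 2 e) (he0 : ∀ u, 0 ≤ e u) (hε : 0 < ε)
    (hes : ∀ u, ε < |u| → e u = 0) (hec : HasCompactSupport e) (he1 : ∫ u, e u = 1)
    {C2 : ℝ} (hC2 : 0 < C2)
    (hdec : ∀ z : ℂ, |z.re| ≤ 1 / 2 → ‖lap (fun u => (e u : ℂ)) z‖ ≤ C2 / (1 + z.im ^ 2))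
    (hC : 0 < C) {A : ℝ} (hB : 0 ≤ B) (hq : Continuous q) (hq0 : ∀ u, 2 * ε ≤ u → q u = 0)
    (hqt : ∀ u, u ≤ -B → |q u| ≤ C * Real.exp (3 / 2 * u))
    (hqz : ∀ ρ : Zr, ∫ u : ℝ, (q u : ℂ) * cexp (((ρ : ℂ) - 1 / 2) * u) = 0)
    (hq1 : ∫ u : ℝ, q u * Real.exp (u / 2) = A) (hAC : C ≤ A) :
    ∃ f : ℝ → ℂ, ContDiff ℝ 2 f ∧ (∀ u, (B + 4 * ε) / 2 < |u| → f u = 0) ∧
      Real.exp (-(4 * ε)) * (A - C) ^ 2 ≤ ∫ u, ‖f u‖ ^ 2 ∧
      ∀ W : ℝ, Weil f W → W ≤ (C2 * C) ^ 2 * ∑' ρ : Zr, (mult ρ : ℝ) / (1 + (ρ : ℂ).im ^ 2) := by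
  set ec : ℝ → ℂ := fun u => (e u : ℂ) with hecdef
  have hcd : ContDiff ℝ 2 ec := Complex.ofRealCLM.contDiff.comp he
  have hcs : HasCompactSupport ec := hec.comp_left Complex.ofReal_zero
  set g : ℝ → ℂ := q1 q B (2 * ε) with hg
  have hgint : Integrable g := by
    have := q1_int (B := B) (R := 2 * ε) hq 0
    simpa using this
  set f0 : ℝ → ℂ := ec ⋆[ContinuousLinearMap.mul ℝ ℂ, volume] g with hf0
  have hf0c : ContDiff ℝ 2 f0 := by
    have := hcs.contDiff_convolution_left (n := 2) (ContinuousLinearMap.mul ℝ ℂ) (μ := volume) hcd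
      hgint.locallyIntegrable
    exact this
  have hf0s : ∀ u, (u < -B - ε ∨ 3 * ε < u) → f0 u = 0 := by
    intro u hu
    simp only [hf0, convolution_def, ContinuousLinearMap.mul_apply']
    refine integral_eq_zero_of_ae (Eventually.of_forall fun t => ?_)
    simp only [Pi.zero_apply]
    by_cases ht : ε < |t|
    · rw [hecdef]
      simp [hes t ht]
    · have ht' := abs_le.1 (not_lt.1 ht)
      have : g (u - t) = 0 := by
        rw [hg]
        unfold q1
        rw [indicator_of_notMem]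
        intro hm
        rcases hu with hu | hu
        · linarith [hm.1, ht'.1]
        · linarith [hm.2, ht'.2]
      rw [this, mul_zero]
  have hlap : ∀ z : ℂ, lap f0 z = lap ec z * lap g z := fun z =>
    lap_conv (int_mul hcd.continuous hcs (by fun_prop)) (q1_int hq z)
  have hgz : ∀ ρ ∈ Zr, ‖lap g (ρ - 1 / 2)‖ ≤ C := by
    intro ρ hρ
    have h1 := q1_lap hq hB hC hq0 hqt (Zr_re hρ)
    have h2 : ∫ u, Fq q (ρ - 1 / 2) u = 0 := hqz ⟨ρ, hρ⟩
    rw [hg, h1, h2, zero_sub, norm_neg]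
    exact Fq_tail_norm hB hC hqt (Zr_re hρ)
  have hfz : ∀ ρ ∈ Zr, ‖lap f0 (ρ - 1 / 2)‖ ≤ C2 * C / (1 + ρ.im ^ 2) := by
    intro ρ hρ
    rw [hlap, norm_mul]
    have h1 := hdec _ (Zr_re hρ)
    have h2 : (ρ - 1 / 2 : ℂ).im = ρ.im := by simp
    rw [h2] at h1
    calc _ ≤ C2 / (1 + ρ.im ^ 2) * C := mul_le_mul h1 (hgz ρ hρ) (norm_nonneg _) (by positivity)
      _ = _ := by ring
  -- lower bound
  have hhalf : A - C ≤ ‖lap g (1 / 2)‖ := by
    have hz : |(1 / 2 : ℂ).re| ≤ 1 / 2 := by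
      norm_num
    have h1 := q1_lap hq hB hC hq0 hqt hz
    have h2 : ∫ u, Fq q (1 / 2) u = (A : ℂ) := by
      rw [← hq1, ← integral_complex_ofReal]
      refine integral_congr_ae (Eventually.of_forall fun u => ?_)
      simp only [Fq]
      push_cast
      congr 2
      ring
    have h3 := Fq_tail_norm hB hC hqt hz
    rw [hg, h1, h2]
    have h4 := norm_sub_norm_le (A : ℂ) (∫ u in Iic (-B), Fq q (1 / 2) u)
    rw [Complex.norm_real, Real.norm_eq_abs] at h4
    have h5 := le_abs_self A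
    linarith
  have hlow : Real.exp (-(ε / 2)) * (A - C) ≤ ‖lap f0 (1 / 2)‖ := by
    rw [hlap, norm_mul]
    exact mul_le_mul (bump_half he.continuous he0 hε hes hec he1) hhalf (by linarith)
      (norm_nonneg _)
  have hup : ‖lap f0 (1 / 2)‖ ^ 2 ≤ (∫ u, ‖f0 u‖ ^ 2) * Real.exp (3 * ε) := by
    have hfc := hf0c.continuous
    have h1 : ‖lap f0 (1 / 2)‖ ≤ ∫ u in Icc (-B - ε) (3 * ε), ‖f0 u‖ * Real.exp (u / 2) := by
      have e1 : lap f0 (1 / 2) = ∫ u in Icc (-B - ε) (3 * ε), f0 u * cexp ((1 / 2) * u) := by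
        unfold lap
        rw [setIntegral_eq_integral_of_forall_compl_eq_zero]
        intro u hu
        rw [hf0s u, zero_mul]
        by_contra hcon
        push Not at hcon
        exact hu hcon
      rw [e1]
      refine (norm_integral_le_integral_norm _).trans (le_of_eq ?_)
      refine integral_congr_ae (Eventually.of_forall fun u => ?_)
      simp only
      rw [norm_mul, Complex.norm_exp]
      congr 2
      simp
      ring
    have h2 := cs (x := -B - ε) (y := 3 * ε) (a := fun u => ‖f0 u‖)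
      (b := fun u => Real.exp (u / 2)) hfc.norm (by fun_prop)
    have h3 : ∫ u in Icc (-B - ε) (3 * ε), ‖f0 u‖ ^ 2 = ∫ u, ‖f0 u‖ ^ 2 := by
      rw [setIntegral_eq_integral_of_forall_compl_eq_zero]
      intro u hu
      rw [hf0s u, norm_zero]
      · norm_num
      · by_contra hcon
        push Not at hcon
        exact hu hcon
    have h4 : ∫ u in Icc (-B - ε) (3 * ε), Real.exp (u / 2) ^ 2 ≤ Real.exp (3 * ε) := by
      have e1 : ∀ u : ℝ, Real.exp (u / 2) ^ 2 = Real.exp u := by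
        intro u
        rw [← Real.exp_nat_mul]
        congr 1
        push_cast
        ring
      simp_rw [e1]
      rw [← integral_exp_Iic (3 * ε)]
      exact setIntegral_mono_set (integrableOn_exp_Iic _)
        (Eventually.of_forall fun u => (Real.exp_pos u).le)
        (HasSubset.Subset.eventuallyLE fun u hu => hu.2)
    rw [h3] at h2
    calc ‖lap f0 (1 / 2)‖ ^ 2 ≤ (∫ u in Icc (-B - ε) (3 * ε), ‖f0 u‖ * Real.exp (u / 2)) ^ 2 :=
          pow_le_pow_left₀ (norm_nonneg _) h1 2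
      _ ≤ _ := h2
      _ ≤ _ := mul_le_mul_of_nonneg_left h4 (integral_nonneg fun u => sq_nonneg _)
  set s : ℝ := 3 * ε - (B + 4 * ε) / 2 with hs
  refine ⟨fun u => f0 (u + s), ?_, ?_, ?_, ?_⟩
  · exact hf0c.comp (contDiff_id.add contDiff_const)
  · intro u hu
    apply hf0s
    rcases lt_abs.1 hu with h | h
    · right
      rw [hs]
      linarith
    · left
      rw [hs]
      linarith
  · have e1 : ∫ u, ‖f0 (u + s)‖ ^ 2 = ∫ u, ‖f0 u‖ ^ 2 :=
      integral_add_right_eq_self (fun u : ℝ => ‖f0 u‖ ^ 2) s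
    simp only
    rw [e1]
    have h1 : (Real.exp (-(ε / 2)) * (A - C)) ^ 2 ≤ (∫ u, ‖f0 u‖ ^ 2) * Real.exp (3 * ε) :=
      (pow_le_pow_left₀ (mul_nonneg (Real.exp_pos _).le (by linarith)) hlow 2).trans hup
    have h2 : Real.exp (-(4 * ε)) * (A - C) ^ 2 =
        Real.exp (-(3 * ε)) * (Real.exp (-(ε / 2)) * (A - C)) ^ 2 := by
      rw [mul_pow, ← Real.exp_nat_mul, ← mul_assoc, ← Real.exp_add]
      congr 2
      push_cast
      ring
    rw [h2]
    calc Real.exp (-(3 * ε)) * (Real.exp (-(ε / 2)) * (A - C)) ^ 2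
        ≤ Real.exp (-(3 * ε)) * ((∫ u, ‖f0 u‖ ^ 2) * Real.exp (3 * ε)) :=
          mul_le_mul_of_nonneg_left h1 (Real.exp_pos _).le
      _ = (∫ u, ‖f0 u‖ ^ 2) * (Real.exp (-(3 * ε)) * Real.exp (3 * ε)) := by ring
      _ = _ := by rw [← Real.exp_add]; simp
  · intro W hW
    unfold Weil at hW
    simp_rw [weil_shift f0 s] at hW
    have hb : ∀ ρ : Zr, ‖(mult ρ : ℂ) *
        (lap f0 ((ρ : ℂ) - 1 / 2) * conj (lap f0 (1 / 2 - conj (ρ : ℂ))))‖ ≤
        (C2 * C) ^ 2 * ((mult ρ : ℝ) / (1 + (ρ : ℂ).im ^ 2)) := by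
      intro ρ
      rw [norm_mul, norm_mul, RCLike.norm_conj, Complex.norm_natCast]
      have h1 := hfz ρ ρ.2
      have h2 := hfz _ (Zr_inv ρ.2)
      rw [← half_conj] at h2
      have h3 : (1 - conj (ρ : ℂ)).im = (ρ : ℂ).im := by simp
      rw [h3] at h2
      have h4 : C2 * C / (1 + (ρ : ℂ).im ^ 2) ≤ C2 * C := by
        rw [div_le_iff₀ (by positivity)]
        have : 0 ≤ C2 * C * (ρ : ℂ).im ^ 2 := by positivity
        linarith
      have h5 : ‖lap f0 ((ρ : ℂ) - 1 / 2)‖ * ‖lap f0 (1 / 2 - conj (ρ : ℂ))‖ ≤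
          (C2 * C / (1 + (ρ : ℂ).im ^ 2)) * (C2 * C) :=
        mul_le_mul h1 (h2.trans h4) (norm_nonneg _) (by positivity)
      calc (mult ρ : ℝ) * (‖lap f0 ((ρ : ℂ) - 1 / 2)‖ * ‖lap f0 (1 / 2 - conj (ρ : ℂ))‖)
          ≤ (mult ρ : ℝ) * ((C2 * C / (1 + (ρ : ℂ).im ^ 2)) * (C2 * C)) :=
            mul_le_mul_of_nonneg_left h5 (Nat.cast_nonneg _)
        _ = _ := by ring
    have hsum := zr_summable.hasSum.mul_left ((C2 * C) ^ 2)
    have h6 := tsum_of_norm_bounded hsum hb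
    rw [hW.tsum_eq, Complex.norm_real, Real.norm_eq_abs] at h6
    exact (le_abs_self W).trans h6

theorem up (hQX : S_QX) : S_UP := by
  intro c hc
  -- choice of `ε`
  obtain ⟨ε, hε0, hε1, hε2⟩ : ∃ ε : ℝ, 0 < ε ∧ ε ≤ 1 / 2 ∧ c < 4 * Real.pi * Real.exp (-(5 * ε)) := by
    have h1 : Tendsto (fun ε : ℝ => 4 * Real.pi * Real.exp (-(5 * ε))) (𝓝 0)
        (𝓝 (4 * Real.pi * Real.exp (-(5 * 0)))) := by
      apply Continuous.tendsto
      fun_prop
    have h2 : 4 * Real.pi * Real.exp (-(5 * 0)) = 4 * Real.pi := by simp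
    rw [h2] at h1
    have h3 := (h1.mono_left (nhdsWithin_le_nhds (s := Ioi 0))).eventually_const_lt hc
    have h4 : ∀ᶠ ε : ℝ in 𝓝[>] 0, ε ∈ Ioo (0 : ℝ) (1 / 2) := Ioo_mem_nhdsGT (by norm_num)
    obtain ⟨ε, h5, h6⟩ := (h3.and h4).exists
    exact ⟨ε, h6.1, h6.2.le, h5⟩
  obtain ⟨C, hC, hQ⟩ := hQX ε hε0 hε1
  obtain ⟨e, he, he0, hes, hec, he1⟩ := bump ε hε0
  have hcd : ContDiff ℝ 2 (fun u => (e u : ℂ)) := Complex.ofRealCLM.contDiff.comp he
  have hcs : HasCompactSupport (fun u => (e u : ℂ)) := hec.comp_left Complex.ofReal_zero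
  obtain ⟨C2, hC2, hdec⟩ := lap_decay hcd hcs (1 / 2)
  set M : ℝ := ∑' ρ : Zr, (mult ρ : ℝ) / (1 + (ρ : ℂ).im ^ 2) with hM
  set C3 : ℝ := (C2 * C) ^ 2 * M with hC3
  set a : ℝ := ε * Real.sinh (ε / 2) with ha
  have ha0 : 0 < a := mul_pos hε0 (Real.sinh_pos_iff.2 (by linarith))
  set c4 : ℝ := Real.exp (-(4 * ε)) * (a / 4) ^ 2 with hc4
  have hc40 : 0 < c4 := by positivity
  set γ : ℝ := 4 * Real.pi * Real.exp (-(5 * ε)) - c with hγ
  have hγ0 : 0 < γ := by rw [hγ]; linarith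
  -- large `L`
  have tE : Tendsto (fun L : ℝ => Real.exp L) atTop atTop := Real.tendsto_exp_atTop
  have t1 : Tendsto (fun L : ℝ => 2 * Real.pi * Real.exp (L - 5 * ε)) atTop atTop := by
    have h1 : Tendsto (fun L : ℝ => L - 5 * ε) atTop atTop := tendsto_atTop_add_const_right _ _ tendsto_id
    exact (tE.comp h1).const_mul_atTop (by positivity)
  have e1 := t1.eventually_ge_atTop 1
  have e2 := (tE.comp t1).eventually_ge_atTop (4 * C / a)
  have e3 := (tE.const_mul_atTop hγ0)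
  have e4 := (tE.comp e3).eventually_ge_atTop (C3 / c4)
  filter_upwards [e1, e2, e4, eventually_ge_atTop (4 * ε)] with L h1 h2 h4 hL
  simp only [Function.comp_apply] at h2 h4
  set c1 : ℝ := 2 * Real.pi * Real.exp (L - 5 * ε) with hc1
  obtain ⟨q, hq, hq0, hqt, hqz, hq1⟩ := hQ c1 h1
  set B : ℝ := L - 4 * ε with hB
  have hB0 : 0 ≤ B := by rw [hB]; linarith
  have hlog : Real.log (2 * Real.pi / c1) - ε = -B := by
    have h5 : 2 * Real.pi / c1 = Real.exp (-(L - 5 * ε)) := by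
      rw [hc1, Real.exp_neg]
      have := Real.exp_pos (L - 5 * ε)
      field_simp
    rw [h5, Real.log_exp, hB]
    ring
  rw [hlog] at hqt
  have hcosh : Real.exp c1 / 2 ≤ Real.cosh c1 := by
    rw [Real.cosh_eq]
    have := Real.exp_pos (-c1)
    linarith
  have hAC : a * Real.exp c1 / 4 ≤ ε * Real.sinh (ε / 2) * Real.cosh c1 - C := by
    rw [← ha]
    have h5 : a * (Real.exp c1 / 2) ≤ a * Real.cosh c1 := mul_le_mul_of_nonneg_left hcosh ha0.le
    have h6 : C ≤ a * Real.exp c1 / 4 := by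
      rw [div_le_iff₀ ha0] at h2
      linarith
    linarith
  have hpos : 0 < a * Real.exp c1 / 4 := by positivity
  obtain ⟨f, hf1, hf2, hf3, hf4⟩ := core (A := ε * Real.sinh (ε / 2) * Real.cosh c1) he he0 hε0
    hes hec he1 hC2 hdec hC hB0 hq hq0 hqt hqz hq1 (by linarith)
  have hlow : c4 * Real.exp (2 * c1) ≤ ∫ u, ‖f u‖ ^ 2 := by
    refine le_trans ?_ hf3
    rw [hc4, mul_assoc]
    apply mul_le_mul_of_nonneg_left _ (Real.exp_pos _).le
    have h5 : (a / 4) ^ 2 * Real.exp (2 * c1) = (a * Real.exp c1 / 4) ^ 2 := by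
      have : Real.exp (2 * c1) = Real.exp c1 ^ 2 := by
        rw [← Real.exp_nat_mul]
        norm_num
      rw [this]
      ring
    rw [h5]
    exact pow_le_pow_left₀ hpos.le hAC 2
  refine ⟨f, hf1, ?_, ?_, ?_⟩
  · have : B + 4 * ε = L := by rw [hB]; ring
    rwa [this] at hf2
  · exact lt_of_lt_of_le (by positivity) hlow
  · intro W hW
    refine (hf4 W hW).trans ?_
    rw [← hM, ← hC3]
    have h6 : C3 ≤ Real.exp (γ * Real.exp L) * c4 := by
      rwa [div_le_iff₀ hc40] at h4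
    have h7 : Real.exp (γ * Real.exp L) * c4 =
        Real.exp (-(c * Real.exp L)) * (c4 * Real.exp (2 * c1)) := by
      have h8 : γ * Real.exp L = -(c * Real.exp L) + 2 * c1 := by
        rw [hγ, hc1, sub_eq_add_neg L, Real.exp_add]
        ring
      rw [h8, Real.exp_add]
      ring
    rw [h7] at h6
    exact h6.trans (mul_le_mul_of_nonneg_left hlow (Real.exp_pos _).le)

end Pool.Agent.W976.WQ
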