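import Mathlib
import Pool.Agent.W187.WQ.BotS
import Pool.Agent.W8.WP.LapB
import Pool.Agent.W8.WP.ZrSum

/-! Symmetries of the zeros of zeta (helper976). -/

set_option autoImplicit false

open Complex MeasureTheory Set Filter
open scoped ComplexConjugate Topology
open Pool.Agent.W187.WP Pool.Agent.W187.WQ Pool.Agent.W8.WP

namespace Pool.Agent.W976.WQ

theorem Zr_conj {s : ℂ} (hs : s ∈ Zr) : conj s ∈ Zr := by
  refine ⟨?_, ?_, ?_⟩
  · rw [riemannZeta_conj, hs.1, map_zero]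
  · simpa using hs.2.1
  · simpa using hs.2.2

theorem Zr_inv {s : ℂ} (hs : s ∈ Zr) : 1 - conj s ∈ Zr := Zr_symm (Zr_conj hs)

theorem Zr_re {s : ℂ} (hs : s ∈ Zr) : |(s - 1 / 2).re| ≤ 1 / 2 := by
  have h1 := hs.2.1
  have h2 := hs.2.2
  have e : (s - 1 / 2).re = s.re - 1 / 2 := by simp
  rw [e, abs_le]
  constructor <;> linarith

theorem half_conj (s : ℂ) : (1 / 2 - conj s : ℂ) = (1 - conj s) - 1 / 2 := by ring

/-- translation -/
theorem lap_shift (f : ℝ → ℂ) (s : ℝ) (z : ℂ) :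
    lap (fun u => f (u + s)) z = cexp (-(z * s)) * lap f z := by
  unfold lap
  have h : ∀ u : ℝ, f (u + s) * cexp (z * u) =
      cexp (-(z * s)) * (f (u + s) * cexp (z * ((u + s : ℝ) : ℂ))) := by
    intro u
    have : cexp (z * u) = cexp (-(z * s)) * cexp (z * ((u + s : ℝ) : ℂ)) := by
      rw [← Complex.exp_add]
      congr 1
      push_cast
      ring
    rw [this]
    ring
  simp_rw [h]
  rw [integral_const_mul]
  congr 1
  exact integral_add_right_eq_self (fun u : ℝ => f u * cexp (z * u)) s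

/-- the Weil form is invariant under translations -/
theorem weil_shift (f : ℝ → ℂ) (s : ℝ) (ρ : ℂ) :
    lap (fun u => f (u + s)) (ρ - 1 / 2) * conj (lap (fun u => f (u + s)) (1 / 2 - conj ρ)) =
      lap f (ρ - 1 / 2) * conj (lap f (1 / 2 - conj ρ)) := by
  rw [lap_shift, lap_shift, map_mul, ← Complex.exp_conj]
  have e : conj (-((1 / 2 - conj ρ) * (s : ℂ))) = (ρ - 1 / 2) * s := by
    apply Complex.ext <;> simp <;> ring
  rw [e]
  have h : cexp (-((ρ - 1 / 2) * s)) * cexp ((ρ - 1 / 2) * s) = 1 := by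
    rw [← Complex.exp_add]
    simp
  calc cexp (-((ρ - 1 / 2) * s)) * lap f (ρ - 1 / 2) *
        (cexp ((ρ - 1 / 2) * s) * conj (lap f (1 / 2 - conj ρ)))
      = (cexp (-((ρ - 1 / 2) * s)) * cexp ((ρ - 1 / 2) * s)) *
          (lap f (ρ - 1 / 2) * conj (lap f (1 / 2 - conj ρ))) := by ring
    _ = _ := by rw [h, one_mul]

end Pool.Agent.W976.WQ
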